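import Pool.Agent.Lib_helper48.SPC.Main

/-!
MP_a7a5c5_an, questions Q1 and Q2: no super-reflexive normed space, separable or not, has
simultaneous packing and covering constant equal to `2`.
-/

namespace Pool.Agent.Results.MP_a7a5c5_an.SuperReflexive

universe u

open Pool.Agent.Lib_helper95.Gamma in
/-- Every super-reflexive real normed space `X` satisfies `gamma X < 2`. -/
theorem result (X : Type u) [NormedAddCommGroup X] [NormedSpace ℝ X] (h : SuperReflexive X) :
    gamma X < 2 :=
  Pool.Agent.Lib_helper48.SPC.gamma_lt_two X h

end Pool.Agent.Results.MP_a7a5c5_an.SuperReflexive
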